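import Pool.Agent.H96.MC.Targets2

/-!
# Number of points on an event
-/

set_option autoImplicit false

namespace Pool.Agent.H59.MC.CNT

open Pool.Agent.H96.MC MeasureTheory ProbabilityTheory
open scoped ENNReal NNReal

theorem lint_pow (r : ℝ≥0) (a : ℕ) : ∫⁻ m : ℕ, ((a : ℝ≥0∞) ^ m) ∂(poissonMeasure r) =
    ENNReal.ofReal (Real.exp (-r) * Real.exp (a * r)) := by
  rw [lintegral_countable']
  have h : ∀ m : ℕ, (a : ℝ≥0∞) ^ m * poissonMeasure r {m} =
      ENNReal.ofReal (Real.exp (-r) * ((a * r : ℝ) ^ m / (m.factorial : ℝ))) := by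
    intro m
    rw [poissonMeasure_singleton, ← ENNReal.ofReal_natCast a,
      ← ENNReal.ofReal_pow (Nat.cast_nonneg a), ← ENNReal.ofReal_mul (by positivity)]
    congr 1
    rw [mul_pow]
    ring
  simp_rw [h]
  have hs : HasSum (fun m : ℕ => Real.exp (-r) * ((a * r : ℝ) ^ m / (m.factorial : ℝ)))
      (Real.exp (-r) * Real.exp (a * r)) := by
    have := (NormedSpace.expSeries_div_hasSum_exp ((a * r : ℝ))).mul_left (Real.exp (-r))
    rw [← Real.exp_eq_exp_ℝ] at this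
    exact this
  rw [← ENNReal.ofReal_tsum_of_nonneg (fun m => by positivity) hs.summable, hs.tsum_eq]

theorem pointwise (q : ℕ) (n : Fin q → ℕ) (k : ℕ) :
    ((∑ i, n i : ℕ) : ℝ≥0∞) ≤ k + (1 / 2) ^ k * ∑ i, ((4 ^ q : ℕ) : ℝ≥0∞) ^ n i := by
  by_cases h : ∑ i, n i ≤ k
  · exact le_add_right (by exact_mod_cast h)
  push Not at h
  have hne : (Finset.univ : Finset (Fin q)).Nonempty := by
    by_contra h0
    rw [Finset.not_nonempty_iff_eq_empty] at h0
    rw [h0, Finset.sum_empty] at h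
    omega
  obtain ⟨i0, _, hi0⟩ := Finset.exists_max_image Finset.univ n hne
  have h1 : ∑ i, n i ≤ q * n i0 := by
    have := Finset.sum_le_card_nsmul Finset.univ n (n i0) hi0
    simpa using this
  have h2 : (∑ i, n i) * 2 ^ k ≤ ∑ i, (4 ^ q) ^ n i := by
    calc (∑ i, n i) * 2 ^ k ≤ 2 ^ (∑ i, n i) * 2 ^ (∑ i, n i) :=
          Nat.mul_le_mul (Nat.lt_two_pow_self).le (Nat.pow_le_pow_right (by norm_num) h.le)
      _ = 4 ^ (∑ i, n i) := by rw [← Nat.mul_pow]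
      _ ≤ 4 ^ (q * n i0) := Nat.pow_le_pow_right (by norm_num) h1
      _ = (4 ^ q) ^ n i0 := by rw [pow_mul]
      _ ≤ ∑ i, (4 ^ q) ^ n i :=
          Finset.single_le_sum (f := fun i => (4 ^ q) ^ n i) (fun _ _ => Nat.zero_le _)
            (Finset.mem_univ i0)
  have h3 : ((∑ i, n i : ℕ) : ℝ≥0∞) * 2 ^ k ≤ ∑ i, ((4 ^ q : ℕ) : ℝ≥0∞) ^ n i := by
    exact_mod_cast h2
  have h4 : ((1 : ℝ≥0∞) / 2) ^ k * 2 ^ k = 1 := by
    rw [← mul_pow, one_div, ENNReal.inv_mul_cancel (by norm_num) (by norm_num), one_pow]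
  calc ((∑ i, n i : ℕ) : ℝ≥0∞) = (1 / 2) ^ k * (((∑ i, n i : ℕ) : ℝ≥0∞) * 2 ^ k) := by
        rw [mul_comm _ ((2 : ℝ≥0∞) ^ k), ← mul_assoc, h4, one_mul]
    _ ≤ (1 / 2) ^ k * ∑ i, ((4 ^ q : ℕ) : ℝ≥0∞) ^ n i := by gcongr
    _ ≤ k + (1 / 2) ^ k * ∑ i, ((4 ^ q : ℕ) : ℝ≥0∞) ^ n i := le_add_self

theorem lint_coord {d q : ℕ} (D : Dat q) (x : CC d q) (a : ℕ) :
    ∫⁻ n : Cfg d q, ((a : ℝ≥0∞) ^ n x) ∂(pois D d) =
      ENNReal.ofReal (Real.exp (-(D.lam x.2)) * Real.exp (a * D.lam x.2)) := by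
  have hp : ∀ r : ℝ≥0, IsProbabilityMeasure (poissonMeasure r) := fun r => inferInstance
  have : ∀ x : CC d q, IsProbabilityMeasure
      (poissonMeasure (⟨D.lam x.2, (D.pos x.2).le⟩ : ℝ≥0)) := fun x => hp _
  have h1 : (pois D d).map (fun n : Cfg d q => n x) =
      poissonMeasure (⟨D.lam x.2, (D.pos x.2).le⟩ : ℝ≥0) :=
    Measure.infinitePi_map_eval
      (fun x : CC d q => poissonMeasure (⟨D.lam x.2, (D.pos x.2).le⟩ : ℝ≥0)) x
  have h2 := lint_pow (⟨D.lam x.2, (D.pos x.2).le⟩ : ℝ≥0) a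
  rw [← h1, lintegral_map (by fun_prop) (by fun_prop)] at h2
  exact h2

theorem cnt (_ : T_FMEAS) : T_CNT := by
  intro d q D
  refine ⟨∑ i, Real.exp (-(D.lam i)) * Real.exp ((4 ^ q : ℕ) * D.lam i),
    Finset.sum_nonneg fun i _ => by positivity, ?_⟩
  intro c S k hS
  have hm : ∀ i : Fin q, Measurable fun n : Cfg d q => (((4 ^ q : ℕ) : ℝ≥0∞) ^ n (c, i)) := by
    intro i
    fun_prop
  calc ∫⁻ n in S, ((∑ i : Fin q, n (c, i) : ℕ) : ENNReal) ∂(pois D d)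
      ≤ ∫⁻ n in S, (k + (1 / 2) ^ k * ∑ i, ((4 ^ q : ℕ) : ℝ≥0∞) ^ n (c, i)) ∂(pois D d) :=
        lintegral_mono fun n => pointwise q (fun i => n (c, i)) k
    _ = (k : ENNReal) * pois D d S +
        ∫⁻ n in S, ((1 / 2) ^ k * ∑ i, ((4 ^ q : ℕ) : ℝ≥0∞) ^ n (c, i)) ∂(pois D d) := by
        rw [lintegral_add_left measurable_const, setLIntegral_const]
    _ ≤ (k : ENNReal) * pois D d S +
        ∫⁻ n, ((1 / 2) ^ k * ∑ i, ((4 ^ q : ℕ) : ℝ≥0∞) ^ n (c, i)) ∂(pois D d) := by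
        gcongr
        exact Measure.restrict_le_self
    _ = (k : ENNReal) * pois D d S + (1 / 2) ^ k * ∑ i, ENNReal.ofReal
        (Real.exp (-(D.lam i)) * Real.exp ((4 ^ q : ℕ) * D.lam i)) := by
        rw [lintegral_const_mul _ (Finset.measurable_sum _ fun i _ => hm i),
          lintegral_finsetSum _ fun i _ => hm i]
        congr 2
        exact Finset.sum_congr rfl fun i _ => lint_coord D (c, i) (4 ^ q)
    _ = (k : ENNReal) * pois D d S + ENNReal.ofReal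
        ((∑ i, Real.exp (-(D.lam i)) * Real.exp ((4 ^ q : ℕ) * D.lam i)) * (1 / 2) ^ k) := by
        congr 1
        rw [← ENNReal.ofReal_sum_of_nonneg fun i _ => by positivity, mul_comm,
          ENNReal.ofReal_mul (Finset.sum_nonneg fun i _ => by positivity),
          ENNReal.ofReal_pow (by norm_num)]
        congr 2
        rw [ENNReal.ofReal_div_of_pos (by norm_num)]
        simp

end Pool.Agent.H59.MC.CNT
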