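import Pool.Agent.H96.MC.Targets
import Pool.Agent.H96.MC.Targets2

/-!
# Matching of a base block
-/

set_option autoImplicit false

namespace Pool.Agent.H59.MC.REGZ

open Pool.Agent.H96.MC
open Classical

variable {d q : ℕ}

theorem adj_comm {a b : Cell d} (h : Adj a b) : Adj b a := by
  unfold Adj at h ⊢
  rw [← h]
  refine Finset.sum_congr rfl fun i _ => ?_
  omega

theorem not_adj_self (a : Cell d) : ¬ Adj a a := by
  unfold Adj
  simp

theorem card_nb (b : Cell d) : (nb b).card ≤ 2 * d := by
  have hsub : nb b ⊆ (Finset.univ : Finset (Fin d × Bool)).image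
      (fun p => Function.update b p.1 (b p.1 + if p.2 then 1 else -1)) := by
    intro b' hb'
    rw [nb, Finset.mem_filter] at hb'
    have h := hb'.2
    unfold Adj at h
    obtain ⟨i, hi⟩ : ∃ i, (b i - b' i).natAbs ≠ 0 := by
      by_contra hc
      push Not at hc
      rw [Finset.sum_eq_zero fun i _ => hc i] at h
      exact absurd h (by norm_num)
    have h1 := Finset.add_sum_erase Finset.univ (fun i => (b i - b' i).natAbs) (Finset.mem_univ i)
    rw [h] at h1
    have h2 : (b i - b' i).natAbs = 1 := by omega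
    have h3 : ∑ x ∈ Finset.univ.erase i, (b x - b' x).natAbs = 0 := by omega
    have h4 : ∀ j, j ≠ i → b j = b' j := by
      intro j hj
      have := (Finset.sum_eq_zero_iff.1 h3) j (Finset.mem_erase.2 ⟨hj, Finset.mem_univ j⟩)
      omega
    rw [Finset.mem_image]
    refine ⟨(i, decide (b' i = b i + 1)), Finset.mem_univ _, ?_⟩
    funext j
    by_cases hj : j = i
    · subst hj
      rw [Function.update_self]
      by_cases hd : b' j = b j + 1
      · simp [hd]
      · simp only [hd, decide_false]
        simp only [Bool.false_eq_true, if_false]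
        omega
    · rw [Function.update_of_ne hj]
      exact h4 j hj
  refine (Finset.card_le_card hsub).trans (Finset.card_image_le.trans ?_)
  simp [mul_comm]

theorem tot_sum {ι : Type} (s : Finset ι) (f : ι → Pat d q) (i : Fin q) :
    tot (∑ a ∈ s, f a) i = ∑ a ∈ s, tot (f a) i := by
  have h := map_sum (totHom d q) f s
  have h' : tot (∑ a ∈ s, f a) = ∑ a ∈ s, tot (f a) := h
  rw [h', Finset.sum_apply]

/-- The pattern moved to the cell 0. -/
theorem push_apply (u : Pat d q) (i : Fin q) : push (fun _ => (0 : Cell d)) u (0, i) = tot u i := by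
  induction u using Finsupp.induction_linear with
  | zero => rw [push_zero, tot_zero]; rfl
  | add f g hf hg => rw [push_add, tot_add, Finsupp.add_apply, hf, hg]; rfl
  | single a b =>
    rw [push_single, tot_single]
    by_cases h : a.2 = i
    · subst h
      rw [Finsupp.single_eq_same, Pi.single_eq_same]
    · rw [Finsupp.single_eq_of_ne (fun e => h (congrArg Prod.snd e).symm),
        Pi.single_eq_of_ne (fun e => h e.symm)]

theorem tot_rst (n : Cfg d q) (l : ℕ) (b : Cell d) (i : Fin q) :
    tot (rst n (cellsOf l b)) i = bc l n (b, i) := by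
  unfold tot bc
  rw [Finsupp.sum_of_support_subset (s := cellsOf l b ×ˢ (Finset.univ : Finset (Fin q)))]
  · rw [Finset.sum_product]
    refine Finset.sum_congr rfl fun z hz => ?_
    rw [Finset.sum_ite_eq' Finset.univ i, if_pos (Finset.mem_univ i), rst_apply, if_pos hz]
  · intro x hx
    rw [Finsupp.mem_support_iff, rst_apply] at hx
    rw [Finset.mem_product]
    refine ⟨?_, Finset.mem_univ _⟩
    by_contra hc
    exact hx (if_neg hc)
  · intro x _
    simp

theorem image_bl {l : ℕ} (hl : 1 ≤ l) (x : Cell d) :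
    (cellsOf l (bl l x)).image (bl l) = {bl l x} := by
  ext b
  rw [Finset.mem_image, Finset.mem_singleton]
  constructor
  · rintro ⟨z, hz, rfl⟩
    exact (mem_cellsOf hl).1 hz
  · rintro rfl
    exact ⟨x, mem_cellsOf_bl hl x, rfl⟩

theorem nb_filter (b : Cell d) : (nb b).filter (fun b' => b' ∉ ({b} : Finset (Cell d))) = nb b := by
  rw [Finset.filter_eq_self]
  intro b' hb' h
  rw [Finset.mem_singleton] at h
  subst h
  rw [nb, Finset.mem_filter] at hb'
  exact not_adj_self _ hb'.2

theorem regz (h : T_SMALL) : T_REGZ := by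
  intro d q D η c₁ E P hd hA hP n o x hM hF hL
  have hl := hP.lpos 0
  set l := P.l 0 with hldef
  set β := bl l x with hβ
  set out : Pat d q := ∑ b' ∈ nb β, o β b' with hout
  set inn : Pat d q := ∑ b' ∈ nb β, o b' β with hinn
  have hreg : regP l n o (cellsOf l β) = (rst n (cellsOf l β) - out) + inn := by
    unfold regP outP inP
    rw [hβ, image_bl hl x, Finset.sum_singleton, Finset.sum_singleton, nb_filter]
  have hle : out ≤ rst n (cellsOf l β) := by
    intro y
    rw [hout, Finsupp.finsetSum_apply]
    exact hM.sum β y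
  have htot1 : ∀ i, tot (rst n (cellsOf l β) - out) i + tot out i = bc l n (β, i) := by
    intro i
    rw [← tot_rst, ← Pi.add_apply, ← tot_add, tsub_add_cancel_of_le hle]
  have hcard := card_nb β
  have hto : ∀ i, tot out i ≤ 2 * d * E := by
    intro i
    rw [hout, tot_sum]
    calc ∑ b' ∈ nb β, tot (o β b') i ≤ ∑ b' ∈ nb β, E := Finset.sum_le_sum fun b' _ => hM.le β b' i
      _ = (nb β).card * E := by simp
      _ ≤ 2 * d * E := Nat.mul_le_mul_right _ hcard
  have hti : ∀ i, tot inn i ≤ 2 * d * E := by
    intro i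
    rw [hinn, tot_sum]
    calc ∑ b' ∈ nb β, tot (o b' β) i ≤ ∑ b' ∈ nb β, E := Finset.sum_le_sum fun b' _ => hM.le b' β i
      _ = (nb β).card * E := by simp
      _ ≤ 2 * d * E := Nat.mul_le_mul_right _ hcard
  have hT : Typ D η (P.w 0) l n β := by
    by_contra hc
    exact hF hc
  set u := regP l n o (cellsOf l β) with hu
  have htu : ∀ i, tot u i + tot out i = bc l n (β, i) + tot inn i := by
    intro i
    have h1 := htot1 i
    have h2 : tot u i = tot (rst n (cellsOf l β) - out) i + tot inn i := by
      rw [hreg, tot_add, Pi.add_apply]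
    omega
  have hfat : Fat D.lam η ((l : ℝ) ^ d) (tot u) := by
    intro i
    have h1 := hT.1 i
    have h2 : (tot u i : ℝ) + tot out i = (bc l n (β, i) : ℝ) + tot inn i := by
      exact_mod_cast htu i
    have h3 : (tot out i : ℝ) ≤ 2 * d * E := by exact_mod_cast hto i
    have h4 : (tot inn i : ℝ) ≤ 2 * d * E := by exact_mod_cast hti i
    have h5 : (0 : ℝ) ≤ tot out i := Nat.cast_nonneg _
    have h6 : (0 : ℝ) ≤ tot inn i := Nat.cast_nonneg _
    have h7 := hP.l0E i
    rw [← hldef] at h7
    have h8 : 0 < η * (l : ℝ) ^ d * D.lam i := by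
      have := hA.1
      have := D.pos i
      positivity
    rw [abs_le] at h1 ⊢
    constructor
    · linarith [h1.1]
    · linarith [h1.2]
  have hv : push (fun _ => (0 : Cell d)) u ∈ Tl D.V 2 := by
    refine hA.2.2.2 {0} (fun _ => (l : ℝ) ^ d) _ ?_ ?_ ?_ ?_
    · intro a ha b hb
      rw [Finset.mem_singleton] at ha hb
      rw [ha, hb]
    · intro y hy
      have h1 := Finsupp.mapDomain_support hy
      rw [Finset.mem_image] at h1
      obtain ⟨z, _, hz⟩ := h1
      rw [← hz]
      exact Finset.mem_singleton_self _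
    · intro b hb
      rw [Finset.mem_singleton] at hb
      subst hb
      refine ⟨hP.l0c, ?_⟩
      intro i
      beta_reduce
      rw [push_apply]
      exact hfat i
    · rw [tot_push]
      exact hL
  have hc := Tl_tot hv
  rw [tot_push] at hc
  have hsup : ∀ y ∈ u.support, ∀ i, (l : ℤ) * (β i - 1) ≤ y.1 i ∧ y.1 i < (l : ℤ) * (β i + 2) := by
    intro y hy i
    have h1 : ∀ i, ((bl l y.1 - β) i).natAbs ≤ 1 := by
      rw [← sn_le_iff]
      rw [Finsupp.mem_support_iff, hreg, Finsupp.add_apply] at hy
      by_cases hy1 : (rst n (cellsOf l β) - out) y = 0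
      · have hy2 : inn y ≠ 0 := by omega
        rw [hinn, Finsupp.finsetSum_apply] at hy2
        obtain ⟨b', hb', hne⟩ := Finset.exists_ne_zero_of_sum_ne_zero hy2
        have h2 := hM.src b' β y (Finsupp.mem_support_iff.2 hne)
        rw [h2]
        rw [nb, Finset.mem_filter] at hb'
        exact mem_cube.1 hb'.1
      · have hy2 : rst n (cellsOf l β) y ≠ 0 := by
          intro h0
          apply hy1
          rw [Finsupp.tsub_apply, h0, zero_tsub]
        have h2 : y.1 ∈ cellsOf l β := by
          by_contra hc'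
          rw [rst_apply, if_neg hc'] at hy2
          exact hy2 rfl
        rw [(mem_cellsOf hl).1 h2, sub_self, sn_zero]
        exact Nat.zero_le _
    have h2 := h1 i
    have h3 := bl_bounds hl y.1 i
    simp only [Pi.sub_apply] at h2
    have hl' : (0 : ℤ) < l := by exact_mod_cast hl
    have h4 : -1 ≤ bl l y.1 i - β i ∧ bl l y.1 i - β i ≤ 1 := by omega
    constructor
    · nlinarith [h3.1, h4.1]
    · nlinarith [h3.2, h4.2]
  refine h d q D.V _ u hc ?_
  intro y hy z hz
  have h0 : nrm (y.1 - z.1) ≤ d * (3 * (l : ℝ)) := by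
    refine nrm_le_mul (by positivity) fun i => ?_
    have h1 := hsup y hy i
    have h2 := hsup z hz i
    have h3 : |(y.1 - z.1) i| ≤ 3 * (l : ℤ) := by
      rw [Pi.sub_apply, abs_le]
      constructor
      · nlinarith [h1.1, h2.2]
      · nlinarith [h1.2, h2.1]
    rw [← Int.cast_abs]
    exact_mod_cast h3
  calc nrm (y.1 - z.1) ≤ d * (3 * (l : ℝ)) := h0
    _ = 3 * d * (l : ℝ) := by ring

end Pool.Agent.H59.MC.REGZ
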