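import Pool.Agent.H96.MC.Targets2

/-!
# Zonings exist
-/

namespace Pool.Agent.H59.MC.ZON

open Pool.Agent.H96.MC

theorem zon (h1 : T_PIG) (h2 : T_ZONS) : T_ZON := by
  intro d q D η c₁ E P hP n J
  induction J with
  | zero =>
    refine ⟨fun x => cellsOf (P.l 0) (bl (P.l 0) x), fun _ => 0, ?_⟩
    refine ⟨fun x => mem_cellsOf_bl (hP.lpos 0) x, ?_, ?_, fun _ _ => rfl, fun _ _ h => h, ?_, ?_⟩
    · intro x y hy
      have h : bl (P.l 0) y = bl (P.l 0) x := (mem_cellsOf (hP.lpos 0)).1 hy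
      exact ⟨by simp only [h], rfl⟩
    · intro x y h
      exact (mem_cellsOf (hP.lpos 0)).2 h.symm
    · intro x y h
      exact absurd h (by norm_num)
    · intro x h
      exact absurd h (by norm_num)
  | succ J ih =>
    obtain ⟨reg, lev, hz⟩ := ih
    exact h2 d q D η c₁ E P hP n J reg lev
      (fun z hz' => h1 d q D η c₁ E P hP n (J + 1) z (Nat.le_add_left 1 J) hz') hz

end Pool.Agent.H59.MC.ZON
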